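import Pool.Agent.W601.SQ.Stm

/-!
# Project SQ, part UNC: uncountable subgroups are dense
-/

set_option autoImplicit false

namespace Pool.Agent.W19.SQ

open Filter Topology Pool.Agent.W601.SQ

theorem unc : S_ALG → S_ANN → S_KER → S_INJ → S_UNC := by
  intro hALG hANN hKER hINJ θ hθ K hK
  obtain ⟨-, -, -, -, -, -, hGG, -⟩ := hALG
  -- the image of `K`
  set K' : Subgroup (ℝ → Circle) := K.map (GG θ).subtype with hK'
  have hcoe : (K' : Set (ℝ → Circle)) =
      (fun x : ↥(GG θ) => (x : ℝ → Circle)) '' (K : Set ↥(GG θ)) := by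
    rw [hK', Subgroup.coe_map]
    rfl
  have hsub : ∀ g ∈ GG θ, g ∈ closure (K' : Set (ℝ → Circle)) := by
    intro g hg
    by_contra hcl
    obtain ⟨s, hs1, hs2⟩ := hANN ℝ K' g hcl
    have hs0 : s ≠ 0 := by
      rintro rfl
      apply hs2
      unfold ch
      rw [Finsupp.prod_zero_index]
    have hcount := hKER θ hθ s hs0
    apply hK
    have h1 : (K : Set ↥(GG θ)) ⊆ (fun x : ↥(GG θ) => (x : ℝ → Circle)) ⁻¹'
        (gm θ '' {m : ℝ →₀ ℤ | ch s (gm θ m) = 1}) := by
      intro x hx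
      obtain ⟨m, hm⟩ := (hGG θ (x : ℝ → Circle)).1 x.2
      refine ⟨m, ?_, hm⟩
      have hx' : (x : ℝ → Circle) ∈ K' := by
        have h2 : (x : ℝ → Circle) ∈ (K' : Set (ℝ → Circle)) := by
          rw [hcoe]
          exact ⟨x, hx, rfl⟩
        exact h2
      show ch s (gm θ m) = 1
      rw [hm]
      exact hs1 _ hx'
    exact ((hcount.image (gm θ)).preimage Subtype.val_injective).mono h1
  intro x
  rw [Topology.IsInducing.subtypeVal.closure_eq_preimage_closure_image]
  have h3 := hsub _ x.2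
  rw [hcoe] at h3
  exact h3

end Pool.Agent.W19.SQ
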